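import Pool.Agent.N229.PG.Stm

/-! Project PG (helper229), leaf S4 (helper58): `V` is holomorphic in the disc. -/

set_option autoImplicit false

namespace PG

open Complex Filter Topology Metric Set

theorem h58_re {a w : ℂ} (ha : ‖a‖ = 1) : 1 - ‖w‖ ≤ (1 - w * (starRingEnd ℂ) a).re := by
  have h1 : (w * (starRingEnd ℂ) a).re ≤ ‖w * (starRingEnd ℂ) a‖ := Complex.re_le_norm _
  rw [norm_mul, RCLike.norm_conj, ha, mul_one] at h1
  rw [Complex.sub_re, Complex.one_re]
  linarith

theorem h58_tsum {α : ℝ} (hK : StmK3) (h0 : 0 < α) (h1 : α < 1) {ι : Type} {a : ι → ℂ}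
    {ρ : ι → ℝ} {C0 : ℝ} (hC : Conf α a ρ C0) {z : ℂ} (hz : ‖z‖ < 1) :
    DifferentiableAt ℂ (fun w => ∑' k, WW α a ρ k w) z := by
  obtain ⟨C, D, hC1, hD1, hk⟩ := hK α h0 h1
  obtain ⟨r, hr1, hr2⟩ := exists_between hz
  have hr0 : 0 < 1 - r := by linarith
  have hs : DifferentiableOn ℂ (fun w => ∑' k, WW α a ρ k w) (ball 0 r) := by
    apply differentiableOn_tsum_of_summable_norm (u := fun k => ρ k ^ (1 - α) * (C * (1 - r)⁻¹))
      (hC.sum_sig.mul_right _)
    · intro k w hw
      rw [mem_ball_zero_iff] at hw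
      apply DifferentiableAt.differentiableWithinAt
      have hre := h58_re (w := w) (hC.norm_a k)
      have hre0 : 0 < (1 - w * (starRingEnd ℂ) (a k)).re := by linarith
      have hne : 1 - w * (starRingEnd ℂ) (a k) ≠ 0 := by
        intro h
        rw [h, Complex.zero_re] at hre0
        exact lt_irrefl _ hre0
      have h2 := (hk (ρ k) (hC.rho_pos k) _ hre0.le hne).2.2.2.2 hre0
      have h3 : DifferentiableAt ℂ (fun w : ℂ => 1 - w * (starRingEnd ℂ) (a k)) w := by
        fun_prop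
      exact h2.comp w h3
    · exact isOpen_ball
    · intro k w hw
      rw [mem_ball_zero_iff] at hw
      have hre := h58_re (w := w) (hC.norm_a k)
      have hre0 : 0 < (1 - w * (starRingEnd ℂ) (a k)).re := by linarith
      have hne : 1 - w * (starRingEnd ℂ) (a k) ≠ 0 := by
        intro h
        rw [h, Complex.zero_re] at hre0
        exact lt_irrefl _ hre0
      have h2 := (hk (ρ k) (hC.rho_pos k) _ hre0.le hne).2.2.1
      have h3 : 1 - r ≤ ‖1 - w * (starRingEnd ℂ) (a k)‖ := by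
        have h4 := Complex.re_le_norm (1 - w * (starRingEnd ℂ) (a k))
        linarith
      have h5 : (0 : ℝ) < ρ k ^ (1 - α) := Real.rpow_pos_of_pos (hC.rho_pos k) _
      calc ‖WW α a ρ k w‖ ≤ C * (ρ k ^ (1 - α) / ‖1 - w * (starRingEnd ℂ) (a k)‖) := h2
        _ ≤ C * (ρ k ^ (1 - α) / (1 - r)) := by gcongr
        _ = ρ k ^ (1 - α) * (C * (1 - r)⁻¹) := by ring
  exact hs.differentiableAt (isOpen_ball.mem_nhds (by rwa [mem_ball_zero_iff]))

theorem leaf_S4 : StmK3 → StmS4 := by
  intro hK α h0 h1 ι a ρ C0 hC cc z hz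
  have h2 := h58_tsum hK h0 h1 hC hz
  have h3 : DifferentiableAt ℂ (fun w : ℂ => (1 - w)⁻¹) z := by
    apply DifferentiableAt.inv
    · fun_prop
    · intro h
      have h4 : z = 1 := (sub_eq_zero.mp h).symm
      rw [h4, norm_one] at hz
      exact lt_irrefl _ hz
  exact h3.add (h2.const_mul _)

end PG
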